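import Pool.Agent.L0h20.SY.Stm

/-!
# Project SY, module CYC (helper88)
-/

set_option autoImplicit false

namespace Pool.Agent.L0h88.SY

open Pool.Agent.L0h20.SY Finset

theorem t_CYC : S_CYC := by
  intro p q n k W hp hq hpq hW
  -- the exponent
  have hex : ∃ l, k < p ^ l := ⟨k, Nat.lt_pow_self hp.one_lt⟩
  obtain ⟨l, hl, hlmin⟩ : ∃ l, k < p ^ l ∧ p ^ l ≤ p * (k + 1) := by
    classical
    refine ⟨Nat.find hex, Nat.find_spec hex, ?_⟩
    rcases Nat.eq_zero_or_pos (Nat.find hex) with h0 | h0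
    · rw [h0, pow_zero]
      exact Nat.mul_pos hp.pos (Nat.succ_pos _)
    · obtain ⟨j, hj⟩ : ∃ j, Nat.find hex = j + 1 := ⟨Nat.find hex - 1, by omega⟩
      have h1 : ¬ k < p ^ j := Nat.find_min hex (by omega)
      rw [hj, pow_succ, mul_comm]
      exact Nat.mul_le_mul_left _ (by omega)
  obtain ⟨N, hN⟩ : ∃ N, N = p ^ l := ⟨_, rfl⟩
  have hN0 : 0 < N := by rw [hN]; exact pow_pos hp.pos l
  have hcop : N.Coprime q := by rw [hN]; exact Nat.Coprime.pow_left l hpq
  obtain ⟨u, -, hu⟩ := Nat.exists_mul_mod_eq_one_of_coprime hcop (by omega)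
  obtain ⟨r, hr⟩ : ∃ r, r = (u * n) % q := ⟨_, rfl⟩
  have hrq : r < q := by rw [hr]; exact Nat.mod_lt _ (by omega)
  have hmod : r * N ≡ n [MOD q] := by
    have h1 : r ≡ u * n [MOD q] := by rw [hr]; exact Nat.mod_modEq _ _
    have h2 : N * u ≡ 1 [MOD q] := by
      unfold Nat.ModEq
      rw [hu, Nat.mod_eq_of_lt (by omega)]
    calc r * N ≡ u * n * N [MOD q] := h1.mul_right N
      _ = N * u * n := by ring
      _ ≡ 1 * n [MOD q] := h2.mul_right n
      _ = n := one_mul n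
  have hrN : r * N ≤ q * p * (k + 1) := by
    calc r * N ≤ q * (p * (k + 1)) := Nat.mul_le_mul (by omega) (by rw [hN]; exact hlmin)
      _ = q * p * (k + 1) := by ring
  obtain ⟨R, hRW, hRc⟩ := Finset.exists_subset_card_eq (hrN.trans hW)
  have : NeZero N := ⟨by omega⟩
  have hcard : Fintype.card (Fin r × ZMod N) = Fintype.card {x // x ∈ R} := by
    rw [Fintype.card_prod, Fintype.card_fin, ZMod.card, Fintype.card_coe, hRc]
  obtain ⟨e⟩ : Nonempty (Fin r × ZMod N ≃ {x // x ∈ R}) := ⟨Fintype.equivOfCardEq hcard⟩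
  obtain ⟨T, hT⟩ : ∃ T : Equiv.Perm (Fin r × ZMod N), T =
    Equiv.prodCongr (Equiv.refl _) (Equiv.addRight (1 : ZMod N)) := ⟨_, rfl⟩
  have hTi : ∀ (i : ℕ) (a : Fin r × ZMod N), (T ^ i) a = (a.1, a.2 + i) := by
    intro i
    induction i with
    | zero => intro a; simp
    | succ i ih =>
      intro a
      rw [pow_succ', Equiv.Perm.mul_apply, ih, hT]
      simp [add_assoc]
  obtain ⟨c, hc⟩ : ∃ c : Equiv.Perm (Fin n), c = Equiv.Perm.ofSubtype (e.permCongr T) :=
    ⟨_, rfl⟩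
  have hpc : ∀ i : ℕ, (e.permCongr T) ^ i = e.permCongr (T ^ i) := by
    intro i
    exact (map_pow (e.permCongrHom) T i).symm
  have hci : ∀ i : ℕ, c ^ i = Equiv.Perm.ofSubtype (e.permCongr (T ^ i)) := by
    intro i
    rw [hc, ← map_pow, hpc]
  refine ⟨R, c, l, hRW, by rw [hRc]; exact hrN, ?_, ?_, hl, ?_, ?_⟩
  · intro x hx
    rw [hc]
    exact Equiv.Perm.ofSubtype_apply_of_not_mem _ hx
  · rw [← hN, hci]
    have h1 : T ^ N = 1 := by
      apply Equiv.ext
      intro a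
      rw [hTi]
      simp
    rw [h1]
    have h2 : e.permCongr (1 : Equiv.Perm (Fin r × ZMod N)) = 1 := map_one e.permCongrHom
    rw [h2, map_one]
  · intro x hx i hi0 hi h
    rw [hci, Equiv.Perm.ofSubtype_apply_of_mem _ hx] at h
    have h1 : e.permCongr (T ^ i) ⟨x, hx⟩ = ⟨x, hx⟩ := Subtype.ext h
    rw [Equiv.permCongr_apply] at h1
    have h2 : (T ^ i) (e.symm ⟨x, hx⟩) = e.symm ⟨x, hx⟩ := by
      apply e.injective
      rw [h1, Equiv.apply_symm_apply]
    rw [hTi] at h2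
    have h3 := congrArg Prod.snd h2
    simp only [] at h3
    have h4 : (i : ZMod N) = 0 := by
      have := add_eq_left.mp h3
      exact this
    rw [ZMod.natCast_eq_zero_iff] at h4
    have h5 := Nat.le_of_dvd hi0 h4
    rw [← hN] at hi
    omega
  · rw [hRc]
    have hRn : r * N ≤ n := by
      have h1 := card_le_univ R
      rw [Fintype.card_fin, hRc] at h1
      exact h1
    exact (Nat.modEq_iff_dvd' hRn).mp hmod

end Pool.Agent.L0h88.SY
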