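import Pool.Agent.L0h20.SY.Stm

/-!
# Project SY, module STEP (helper88)
-/

set_option autoImplicit false

namespace Pool.Agent.L0h88.SY

open Pool.Agent.L0h20.SY Finset

section

variable {Ω X : Type} [Fintype Ω] [DecidableEq Ω] [MulAction (Equiv.Perm Ω) X]

/-- a family of disjoint moved pairs -/
def Good (W : Finset Ω) (x : X) (F : Finset (Ω × Ω)) : Prop :=
  (∀ e ∈ F, e.1 ∈ W ∧ e.2 ∈ W ∧ Equiv.swap e.1 e.2 • x ≠ x) ∧
    ∀ e ∈ F, ∀ f ∈ F, e ≠ f → e.1 ≠ f.1 ∧ e.1 ≠ f.2 ∧ e.2 ≠ f.1 ∧ e.2 ≠ f.2

omit [Fintype Ω] in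
lemma good_ne {W : Finset Ω} {x : X} {F : Finset (Ω × Ω)} (hF : Good W x F) {e : Ω × Ω}
    (he : e ∈ F) : e.1 ≠ e.2 := by
  intro h
  apply (hF.1 e he).2.2
  rw [h, Equiv.swap_self]
  exact one_smul _ x

/-- the induction -/
lemma claim {W : Finset Ω} {x : X} {m : X → ℕ} {k : ℕ} {F : Finset (Ω × Ω)}
    (hm : ∀ σ : Equiv.Perm Ω, σ • x = x → ∀ y, m (σ • y) = m y)
    (hF : Good W x F) (y : Ω × Ω → X) (B : Ω × Ω → Finset Ω)
    (hy : ∀ e ∈ F, m (Equiv.swap e.1 e.2 • y e) ≠ m (y e))
    (hB : ∀ e ∈ F, (B e).card ≤ k ∧ Sup W (B e) (y e)) :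
    ∀ t : ℕ, ∀ S ⊆ F, t * (k + 1) ≤ S.card → ∃ G : Finset (Equiv.Perm Ω), G.card = 2 ^ t ∧
      (∀ g ∈ G, ∀ a, (∀ e ∈ S, a ≠ e.1 ∧ a ≠ e.2) → g a = a) ∧
      ∀ g ∈ G, ∀ g' ∈ G, g • x = g' • x → g = g'
  | 0, S, _, _ => by
    refine ⟨{1}, by simp, ?_, ?_⟩
    · intro g hg a _
      rw [mem_singleton.mp hg]
      rfl
    · intro g hg g' hg' _
      rw [mem_singleton.mp hg, mem_singleton.mp hg']
  | t + 1, S, hS, hc => by
    classical
    have hne : S.Nonempty := by
      rw [← card_pos]
      have : 0 < (t + 1) * (k + 1) := by positivity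
      omega
    obtain ⟨i, hi⟩ := hne
    have hiF := hS hi
    obtain ⟨S', hS'⟩ : ∃ S', S' = S.filter (fun e => e ≠ i ∧ e.1 ∉ B i ∧ e.2 ∉ B i) := ⟨_, rfl⟩
    obtain ⟨D, hD⟩ : ∃ D, D = S.filter (fun e => e.1 ∈ B i ∨ e.2 ∈ B i) := ⟨_, rfl⟩
    have hDc : D.card ≤ (B i).card := by
      apply Finset.card_le_card_of_injOn (fun e => if e.1 ∈ B i then e.1 else e.2)
      · intro e he
        rw [hD, mem_coe, mem_filter] at he
        rw [mem_coe]
        simp only []
        split_ifs with h
        · exact h
        · exact he.2.resolve_left h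
      · intro e he f hf hef
        rw [hD, mem_coe, mem_filter] at he hf
        by_contra hne
        have h1 := hF.2 e (hS he.1) f (hS hf.1) hne
        simp only [] at hef
        split_ifs at hef
        · exact h1.1 hef
        · exact h1.2.1 hef
        · exact h1.2.2.1 hef
        · exact h1.2.2.2 hef
    have hsub : S ⊆ S' ∪ ({i} ∪ D) := by
      intro e he
      rw [mem_union, mem_union, mem_singleton, hS', hD, mem_filter, mem_filter]
      by_cases h1 : e = i
      · exact Or.inr (Or.inl h1)
      · by_cases h2 : e.1 ∈ B i ∨ e.2 ∈ B i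
        · exact Or.inr (Or.inr ⟨he, h2⟩)
        · push Not at h2
          exact Or.inl ⟨he, h1, h2.1, h2.2⟩
    have hcard : t * (k + 1) ≤ S'.card := by
      have h1 := (card_le_card hsub).trans ((card_union_le _ _).trans
        (Nat.add_le_add_left (card_union_le _ _) _))
      rw [card_singleton] at h1
      have h2 := (hB i hiF).1
      have h3 : (t + 1) * (k + 1) = t * (k + 1) + (k + 1) := by ring
      omega
    have hS'S : S' ⊆ S := by rw [hS']; exact filter_subset _ _
    obtain ⟨G', hG1, hG2, hG3⟩ := claim hm hF y B hy hB t S' (hS'S.trans hS) hcard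
    obtain ⟨τ, hτ⟩ : ∃ τ, τ = Equiv.swap i.1 i.2 := ⟨_, rfl⟩
    -- the elements of `G'` fix the points of `i` and of `B i`
    have hfix1 : ∀ g ∈ G', g i.1 = i.1 ∧ g i.2 = i.2 := by
      intro g hg
      constructor
      · apply hG2 g hg
        intro e he
        rw [hS', mem_filter] at he
        have h1 := hF.2 i hiF e (hS he.1) (fun h => he.2.1 h.symm)
        exact ⟨h1.1, h1.2.1⟩
      · apply hG2 g hg
        intro e he
        rw [hS', mem_filter] at he
        have h1 := hF.2 i hiF e (hS he.1) (fun h => he.2.1 h.symm)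
        exact ⟨h1.2.2.1, h1.2.2.2⟩
    have hfixB : ∀ g ∈ G', ∀ b ∈ B i, g b = b := by
      intro g hg b hb
      apply hG2 g hg
      intro e he
      rw [hS', mem_filter] at he
      constructor
      · intro h
        exact he.2.2.1 (h ▸ hb)
      · intro h
        exact he.2.2.2 (h ▸ hb)
    have hfixW : ∀ g ∈ G', PermOf W g := by
      intro g hg a ha
      apply hG2 g hg
      intro e he
      have h1 := hF.1 e (hS (hS'S he))
      constructor
      · intro h
        exact ha (h ▸ h1.1)
      · intro h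
        exact ha (h ▸ h1.2.1)
    have hfixy : ∀ g ∈ G', g • y i = y i := fun g hg =>
      (hB i hiF).2 g (hfixW g hg) (hfixB g hg)
    have hcomm : ∀ g ∈ G', g * τ = τ * g := by
      intro g hg
      have h1 := Equiv.mul_swap_eq_swap_mul g i.1 i.2
      rw [(hfix1 g hg).1, (hfix1 g hg).2] at h1
      rw [hτ]
      exact h1
    have hττ : τ * τ = 1 := by
      rw [hτ]
      exact Equiv.swap_mul_self _ _
    -- the images are different
    have hdiff : ∀ g ∈ G', ∀ g' ∈ G', g • x ≠ (τ * g') • x := by
      intro g hg g' hg' h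
      have h1 : (g⁻¹ * (τ * g')) • x = x := by
        rw [mul_smul, ← h, inv_smul_smul]
      have h2 := hm _ h1 (y i)
      apply hy i hiF
      rw [← h2, ← hτ]
      congr 1
      have h3 : g⁻¹ * (τ * g') = τ * (g⁻¹ * g') := by
        have h4 : g⁻¹ * τ = τ * g⁻¹ := by
          have h5 := hcomm g hg
          calc g⁻¹ * τ = g⁻¹ * (τ * g) * g⁻¹ := by group
            _ = g⁻¹ * (g * τ) * g⁻¹ := by rw [h5]
            _ = τ * g⁻¹ := by group
        rw [← mul_assoc, h4, mul_assoc]
      rw [h3, mul_smul, mul_smul, hfixy g' hg', inv_smul_eq_iff.mpr (hfixy g hg).symm]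
    have hinj : Function.Injective (fun g : Equiv.Perm Ω => τ * g) := mul_right_injective τ
    have hdisj : Disjoint G' (G'.image fun g => τ * g) := by
      rw [Finset.disjoint_left]
      intro g hg h
      obtain ⟨g', hg', h1⟩ := mem_image.mp h
      apply hdiff g hg g' hg'
      rw [show τ * g' = g from h1]
    refine ⟨G' ∪ G'.image (fun g => τ * g), ?_, ?_, ?_⟩
    · rw [card_union_of_disjoint hdisj, card_image_of_injective _ hinj, hG1]
      ring
    · intro g hg a ha
      have ha' : ∀ e ∈ S', a ≠ e.1 ∧ a ≠ e.2 := fun e he => ha e (hS'S he)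
      rcases mem_union.mp hg with h | h
      · exact hG2 g h a ha'
      · obtain ⟨g', hg', rfl⟩ := mem_image.mp h
        rw [Equiv.Perm.mul_apply, hG2 g' hg' a ha', hτ]
        exact Equiv.swap_apply_of_ne_of_ne (ha i hi).1 (ha i hi).2
    · intro g hg g' hg' h
      rcases mem_union.mp hg with h1 | h1
      · rcases mem_union.mp hg' with h2 | h2
        · exact hG3 g h1 g' h2 h
        · obtain ⟨g2, hg2, rfl⟩ := mem_image.mp h2
          exact absurd h (hdiff g h1 g2 hg2)
      · obtain ⟨g1, hg1, rfl⟩ := mem_image.mp h1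
        rcases mem_union.mp hg' with h2 | h2
        · exact absurd h.symm (hdiff g' h2 g1 hg1)
        · obtain ⟨g2, hg2, rfl⟩ := mem_image.mp h2
          simp only [mul_smul] at h
          have h3 : g1 • x = g2 • x := (MulAction.injective τ) h
          rw [hG3 g1 hg1 g2 hg2 h3]

end

theorem t_STEP (h1 : S_SWAP) (h4 : S_CNT) : S_STEP := by
  intro Ω X _ _ _ W k x m hm hsup hmany hW
  classical
  obtain ⟨F, hFm, hmax⟩ := Finset.exists_max_image
    ((univ : Finset (Finset (Ω × Ω))).filter (fun F => Good W x F)) Finset.card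
    ⟨∅, by
      rw [mem_filter]
      refine ⟨mem_univ _, ?_, ?_⟩
      · intro e he
        exact absurd he (notMem_empty _)
      · intro e he
        exact absurd he (notMem_empty _)⟩
  have hF : Good W x F := (mem_filter.mp hFm).2
  by_cases hbig : W.card ≤ 4 * F.card
  · -- many disjoint moved pairs
    exfalso
    apply hmany
    have hex : ∀ e ∈ F, ∃ y : X, m (Equiv.swap e.1 e.2 • y) ≠ m y ∧ m y ≠ 0 := by
      intro e he
      have h2 := (hF.1 e he).2.2
      rw [Ne, hm] at h2
      push Not at h2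
      obtain ⟨y, hy⟩ := h2
      by_cases h0 : m y = 0
      · refine ⟨Equiv.swap e.1 e.2 • y, ?_, ?_⟩
        · rw [← mul_smul, Equiv.swap_mul_self, one_smul]
          exact hy.symm
        · rw [h0] at hy
          exact hy
      · exact ⟨y, hy, h0⟩
    have hex2 : ∀ e : Ω × Ω, ∃ yB : X × Finset Ω, e ∈ F →
        m (Equiv.swap e.1 e.2 • yB.1) ≠ m yB.1 ∧ yB.2.card ≤ k ∧ Sup W yB.2 yB.1 := by
      intro e
      by_cases he : e ∈ F
      · obtain ⟨y, hy, hy0⟩ := hex e he
        obtain ⟨B, -, hB1, hB2⟩ := hsup y hy0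
        exact ⟨(y, B), fun _ => ⟨hy, hB1, hB2⟩⟩
      · exact ⟨(x, ∅), fun h => absurd h he⟩
    choose yB hyB using hex2
    obtain ⟨G, hG1, hG2, hG3⟩ := claim (fun σ h => (hm σ).mp h) hF (fun e => (yB e).1)
      (fun e => (yB e).2) (fun e he => (hyB e he).1) (fun e he => (hyB e he).2) (k + 1) F
      (Finset.Subset.refl F) (by nlinarith)
    refine ⟨G, hG1.ge, ?_, hG3⟩
    intro g hg a ha
    apply hG2 g hg
    intro e he
    have h2 := hF.1 e he
    constructor
    · intro h
      exact ha (h ▸ h2.1)
    · intro h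
      exact ha (h ▸ h2.2.1)
  · -- few pairs
    push Not at hbig
    obtain ⟨A, hA⟩ : ∃ A : Finset Ω, A = F.biUnion (fun e => {e.1, e.2}) := ⟨_, rfl⟩
    have hAc : A.card ≤ 2 * F.card := by
      rw [hA, mul_comm]
      exact Finset.card_biUnion_le_card_mul _ _ _ fun e _ => Finset.card_le_two
    have hAW : A ⊆ W := by
      rw [hA, Finset.biUnion_subset]
      intro e he a ha
      have h2 := hF.1 e he
      rcases mem_insert.mp ha with h | h
      · rw [h]; exact h2.1
      · rw [mem_singleton.mp h]; exact h2.2.1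
    have hmem : ∀ e ∈ F, e.1 ∈ A ∧ e.2 ∈ A := by
      intro e he
      rw [hA]
      exact ⟨mem_biUnion.mpr ⟨e, he, mem_insert_self _ _⟩,
        mem_biUnion.mpr ⟨e, he, mem_insert_of_mem (mem_singleton_self _)⟩⟩
    have hS : Sup W A x := by
      apply h1
      intro u hu v hv huA hvA
      by_contra hne
      have hnF : (u, v) ∉ F := fun h => huA (hmem _ h).1
      have hgood : Good W x (insert (u, v) F) := by
        constructor
        · intro e he
          rcases mem_insert.mp he with h | h
          · rw [h]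
            exact ⟨hu, hv, hne⟩
          · exact hF.1 e h
        · intro e he f hf hef
          rcases mem_insert.mp he with h | h
          · rcases mem_insert.mp hf with h' | h'
            · exact absurd (h.trans h'.symm) hef
            · have h3 := hmem f h'
              rw [h]
              exact ⟨fun h4 => huA (by rw [show u = f.1 from h4]; exact h3.1),
                fun h4 => huA (by rw [show u = f.2 from h4]; exact h3.2),
                fun h4 => hvA (by rw [show v = f.1 from h4]; exact h3.1),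
                fun h4 => hvA (by rw [show v = f.2 from h4]; exact h3.2)⟩
          · rcases mem_insert.mp hf with h' | h'
            · have h3 := hmem e h
              rw [h']
              exact ⟨fun h4 => huA (by rw [← show e.1 = u from h4]; exact h3.1),
                fun h4 => hvA (by rw [← show e.1 = v from h4]; exact h3.1),
                fun h4 => huA (by rw [← show e.2 = u from h4]; exact h3.2),
                fun h4 => hvA (by rw [← show e.2 = v from h4]; exact h3.2)⟩
            · exact hF.2 e h f h' hef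
      have h5 := hmax _ (mem_filter.mpr ⟨mem_univ _, hgood⟩)
      rw [card_insert_of_notMem hnF] at h5
      omega
    exact h4 Ω X W A k x hAW (by omega) hS hmany

end Pool.Agent.L0h88.SY
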